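import Mathlib
import Pool.Agent.V1169.PI4

set_option autoImplicit false

universe u v

namespace Pool.Agent.Results.MP_cf3d36_an.PositiveIsomorphism

theorem result :
    (∀ (K : Type u) [MetricSpace K] [CompactSpace K] [Uncountable K],
      (∃ T : C(K, ℝ) ≃L[ℝ] C(unitInterval, ℝ), T 1 = 1 ∧ ∀ f : C(K, ℝ), 0 ≤ f → 0 ≤ T f) ∧
      (∃ T : C(K, ℝ) ≃L[ℝ] C(unitInterval, ℝ), T 1 = 1 ∧
        ∀ g : C(unitInterval, ℝ), 0 ≤ g → 0 ≤ T.symm g)) ∧
    (∀ (K : Type u) (L : Type v) [MetricSpace K] [CompactSpace K] [Uncountable K]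
      [MetricSpace L] [CompactSpace L] [Uncountable L],
      ∃ T : C(K, ℝ) ≃L[ℝ] C(L, ℝ), T 1 = 1 ∧ ∀ f : C(K, ℝ), 0 ≤ f → 0 ≤ T f) := by
  have hI : Uncountable unitInterval := by
    rw [← Set.countable_coe_iff.not.trans not_countable_iff]
    intro h
    have h1 := Cardinal.mk_Icc_real (zero_lt_one)
    have h2 := Cardinal.le_aleph0_iff_set_countable.2 h
    rw [show (unitInterval : Set ℝ) = Set.Icc 0 1 from rfl, h1] at h2
    exact absurd h2 (not_le.2 Cardinal.aleph0_lt_continuum)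
  have key : ∀ (K : Type u) (L : Type v) [MetricSpace K] [CompactSpace K] [Uncountable K]
      [MetricSpace L] [CompactSpace L] [Uncountable L],
      ∃ T : C(K, ℝ) ≃L[ℝ] C(L, ℝ), T 1 = 1 ∧ ∀ f : C(K, ℝ), 0 ≤ f → 0 ≤ T f := by
    intro K L _ _ hK _ _ hL
    obtain ⟨T, hT1, hT⟩ := Pool.Agent.V1169.PI.main K L hK hL
    exact ⟨T, hT1, fun f hf => ContinuousMap.le_def.2 (hT f (ContinuousMap.le_def.1 hf))⟩
  refine ⟨?_, key⟩
  intro K _ _ hK
  constructor
  · obtain ⟨T, hT1, hT⟩ := Pool.Agent.V1169.PI.main K unitInterval hK hI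
    exact ⟨T, hT1, fun f hf => ContinuousMap.le_def.2 (hT f (ContinuousMap.le_def.1 hf))⟩
  · obtain ⟨T, hT1, hT⟩ := Pool.Agent.V1169.PI.main unitInterval K hI hK
    refine ⟨T.symm, ?_, fun f hf => ContinuousMap.le_def.2 (hT f (ContinuousMap.le_def.1 hf))⟩
    rw [ContinuousLinearEquiv.symm_apply_eq, hT1]

end Pool.Agent.Results.MP_cf3d36_an.PositiveIsomorphism
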